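import Pool.Agent.H48R3.CP.H

set_option autoImplicit false

namespace Pool.Agent.H48R3.CP2

open Set Filter Topology MeasureTheory intervalIntegral
open Pool.Agent.H48R3.CP

theorem le_h' (c : ℝ) (hc : 0 < c) (hc1 : c < 1) : (1 - c) * (1 + 11 / 100 * c) ≤ h c := by
  set τ : ℝ → ℝ := fun x => c + (1 - c) * Real.sin x ^ 2 with hτ
  have hτpos : ∀ x, 0 < τ x := fun x => by
    have : 0 ≤ (1 - c) * Real.sin x ^ 2 := mul_nonneg (by linarith) (sq_nonneg _)
    show 0 < c + (1 - c) * Real.sin x ^ 2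
    linarith
  have h1τ : ∀ x, 1 - τ x = (1 - c) * Real.cos x ^ 2 := fun x => by
    have := Real.sin_sq_add_cos_sq x
    show 1 - (c + (1 - c) * Real.sin x ^ 2) = _
    have : Real.cos x ^ 2 = 1 - Real.sin x ^ 2 := by linarith
    rw [this]; ring
  set R : ℝ → ℝ := fun x => Real.cos x * √((1 - c) * (1 + τ x)) with hR
  have hp : ∀ x, 0 < (1 - c) * (1 + τ x) := fun x => mul_pos (by linarith) (by linarith [hτpos x])
  have hR2 : ∀ x, 1 - R x ^ 2 = τ x ^ 2 := fun x => by
    show 1 - (Real.cos x * √((1 - c) * (1 + τ x))) ^ 2 = _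
    rw [mul_pow, Real.sq_sqrt (hp x).le]
    have := h1τ x
    have e : Real.cos x ^ 2 * ((1 - c) * (1 + τ x)) = (1 - τ x) * (1 + τ x) := by
      rw [this]; ring
    rw [e]; ring
  have hsq : ∀ x, √(1 - R x ^ 2) = τ x := fun x => by
    rw [hR2, Real.sqrt_sq (hτpos x).le]
  set R' : ℝ → ℝ := fun x => - (2 * (1 - c) * τ x * Real.sin x / √((1 - c) * (1 + τ x))) with hR'
  have hd : ∀ x ∈ uIcc (0:ℝ) (Real.pi / 2), HasDerivAt R (R' x) x := by
    intro x _
    have h1 : HasDerivAt τ ((1 - c) * (2 * Real.sin x * Real.cos x)) x := by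
      have := (((Real.hasDerivAt_sin x).pow 2).const_mul (1 - c)).const_add c
      refine this.congr_deriv ?_
      simp
    have h2 : HasDerivAt (fun x => (1 - c) * (1 + τ x)) ((1 - c) * ((1 - c) * (2 * Real.sin x * Real.cos x))) x :=
      (h1.const_add 1).const_mul (1 - c)
    have h3 := h2.sqrt (hp x).ne'
    have h4 := (Real.hasDerivAt_cos x).mul h3
    refine h4.congr_deriv ?_
    have hq : 0 < √((1 - c) * (1 + τ x)) := Real.sqrt_pos.2 (hp x)
    have hq2 : √((1 - c) * (1 + τ x)) ^ 2 = (1 - c) * (1 + τ x) := Real.sq_sqrt (hp x).le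
    have hcs := h1τ x
    show _ = - (2 * (1 - c) * τ x * Real.sin x / √((1 - c) * (1 + τ x)))
    generalize √((1 - c) * (1 + τ x)) = Q at *
    generalize Real.sin x = S at *
    generalize Real.cos x = C at *
    generalize τ x = T at *
    field_simp
    rw [hq2]
    linear_combination (-S * (1 - c)) * hcs
  have hcR : ContinuousOn R' (uIcc (0:ℝ) (Real.pi / 2)) := by
    have : ∀ x : ℝ, √((1 - c) * (1 + τ x)) ≠ 0 := fun x => (Real.sqrt_pos.2 (hp x)).ne'
    apply Continuous.continuousOn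
    show Continuous fun x => - (2 * (1 - c) * τ x * Real.sin x / √((1 - c) * (1 + τ x)))
    fun_prop (disch := assumption)
  have hsub := integral_comp_mul_deriv' (g := fun r => √(1 - c / √(1 - r ^ 2))) hd hcR (by
    intro y hy
    obtain ⟨x, _, rfl⟩ := hy
    apply ContinuousAt.continuousWithinAt
    have : √(1 - R x ^ 2) ≠ 0 := by rw [hsq]; exact (hτpos x).ne'
    fun_prop (disch := assumption))
  have hR0 : R 0 = √(1 - c ^ 2) := by
    show Real.cos 0 * √((1 - c) * (1 + (c + (1 - c) * Real.sin 0 ^ 2))) = _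
    simp only [Real.cos_zero, Real.sin_zero]
    ring_nf
  have hR1 : R (Real.pi / 2) = 0 := by
    show Real.cos (Real.pi / 2) * _ = 0
    simp
  rw [hR0, hR1, integral_symm 0 (√(1 - c ^ 2))] at hsub
  have hh : h c = ∫ x in (0:ℝ)..(Real.pi / 2), √(1 - c / τ x) * (- R' x) := by
    unfold h
    rw [← neg_eq_iff_eq_neg] at hsub
    rw [← hsub, ← intervalIntegral.integral_neg]
    congr 1
    funext x
    simp only [Function.comp_apply, hsq]
    ring
  rw [hh]
  have hlow : (1 - c) * (1 + 11 / 100 * c) ≤ ∫ x in (0:ℝ)..(Real.pi / 2),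
      ((1 - c) * ((1 - c) * (2 * Real.sin x ^ 2 * √(Real.sin x ^ 2 / (1 + Real.sin x ^ 2)))) +
      (1 - c) * c * √(1 / 2) * (2 * Real.sin x ^ 2)) := by
    have hpos : ∀ x : ℝ, 1 + Real.sin x ^ 2 ≠ 0 := fun x => by positivity
    rw [intervalIntegral.integral_add, intervalIntegral.integral_const_mul,
      intervalIntegral.integral_const_mul, intervalIntegral.integral_const_mul, int_sin3, int_sin2]
    · have h1 : (7071 / 10000 : ℝ) ≤ √(1 / 2) := Real.le_sqrt_of_sq_le (by norm_num)
      have h2 : (3141 / 1000 : ℝ) < Real.pi := by linarith [Real.pi_gt_d4]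
      have h3 : (111 / 100 : ℝ) ≤ √(1 / 2) * (Real.pi / 2) := by nlinarith
      have h4 : 0 ≤ (1 - c) * c := mul_nonneg (by linarith) hc.le
      nlinarith [mul_le_mul_of_nonneg_left h3 h4]
    · apply Continuous.intervalIntegrable
      fun_prop (disch := assumption)
    · apply Continuous.intervalIntegrable
      fun_prop
  refine hlow.trans ?_
  apply intervalIntegral.integral_mono_on (by positivity)
  · apply Continuous.intervalIntegrable
    have hpos : ∀ x : ℝ, 1 + Real.sin x ^ 2 ≠ 0 := fun x => by positivity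
    fun_prop (disch := assumption)
  · apply ContinuousOn.intervalIntegrable
    apply ContinuousOn.mul _ hcR.neg
    have : ∀ x : ℝ, τ x ≠ 0 := fun x => (hτpos x).ne'
    apply Continuous.continuousOn
    fun_prop (disch := assumption)
  intro x hx
  have hs : 0 ≤ Real.sin x := Real.sin_nonneg_of_nonneg_of_le_pi hx.1 (by linarith [hx.2, Real.pi_pos])
  have hs1 : Real.sin x ^ 2 ≤ 1 := Real.sin_sq_le_one x
  have hconc := conc c (Real.sin x ^ 2) hc.le hc1.le (sq_nonneg _) hs1
  have e1 : √(1 - c / τ x) * (- R' x) = (1 - c) * (2 * Real.sin x ^ 2) * √(τ x / (1 + τ x)) := by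
    show √(1 - c / τ x) * (- - (2 * (1 - c) * τ x * Real.sin x / √((1 - c) * (1 + τ x)))) = _
    have e2 : 1 - c / τ x = (1 - c) * Real.sin x ^ 2 / τ x := by
      have : τ x ≠ 0 := (hτpos x).ne'
      field_simp
      show c + (1 - c) * Real.sin x ^ 2 - c = _
      ring
    rw [e2, Real.sqrt_div' _ (hτpos x).le, Real.sqrt_mul (by linarith), Real.sqrt_sq hs,
      Real.sqrt_mul (by linarith), Real.sqrt_div' _ (by linarith [hτpos x])]
    have q1 : √(τ x) ^ 2 = τ x := Real.sq_sqrt (hτpos x).le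
    have q2 : √(1 - c) ^ 2 = 1 - c := Real.sq_sqrt (by linarith)
    have q3 : 0 < √(1 - c) := Real.sqrt_pos.2 (by linarith)
    have q4 : 0 < √(τ x) := Real.sqrt_pos.2 (hτpos x)
    have q5 : 0 < √(1 + τ x) := Real.sqrt_pos.2 (by linarith [hτpos x])
    have q6 : 2 * (1 - c) * τ x * Real.sin x = 2 * (1 - c) * √(τ x) ^ 2 * Real.sin x := by rw [q1]
    rw [q6]
    field_simp
  rw [e1]
  have h5 : 0 ≤ (1 - c) * (2 * Real.sin x ^ 2) := mul_nonneg (by linarith) (by positivity)
  have h6 := mul_le_mul_of_nonneg_left hconc h5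
  refine le_trans (le_of_eq ?_) h6
  ring

end Pool.Agent.H48R3.CP2
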