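import Pool.Agent.H48R3.CP.OneD
import Pool.Agent.H48R3.CP2.H

set_option autoImplicit false

namespace Pool.Agent.H48R3.CP2

open Set Filter Topology MeasureTheory
open Pool.Agent.H48R3.CP hiding algJ algK algN alg s0 s0_pos s0_le oneD le_h

/-- the parameter -/
noncomputable def s1 : ℝ := 12 / 25

theorem s1_pos : 0 < s1 := by norm_num [s1]
theorem s1_le : s1 ≤ 1 / 2 := by norm_num [s1]

theorem algJ (m : ℝ) (hμ2 : 2 / 100 < |m - 1 / 2|) :
    J s1 m ≤ 1 - (2083 / 1000 * (|m - 1 / 2| - 2 / 100)) ^ 2 := by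
  rcases le_total 0 (m - 1 / 2) with hs | hs
  · rw [abs_of_nonneg hs] at hμ2 ⊢
    unfold J s1
    rw [max_eq_right (by linarith), max_eq_left (by linarith)]
    have e : 1 - (0 / (12 / 25 : ℝ)) ^ 2 - ((m - (1 - 12 / 25)) / (12 / 25)) ^ 2
      = 1 - (25 / 12) ^ 2 * (m - 1 / 2 - 2 / 100) ^ 2 := by ring
    rw [e]
    have := sq_nonneg (m - 1 / 2 - 2 / 100)
    have e2 : (2083 / 1000 * (m - 1 / 2 - 2 / 100)) ^ 2 = (2083 / 1000) ^ 2 * (m - 1 / 2 - 2 / 100) ^ 2 := by ring
    rw [e2]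
    linarith
  · rw [abs_of_nonpos hs] at hμ2 ⊢
    unfold J s1
    rw [max_eq_left (by linarith), max_eq_right (by linarith)]
    have e : 1 - ((12 / 25 - m) / (12 / 25)) ^ 2 - (0 / (12 / 25 : ℝ)) ^ 2
      = 1 - (25 / 12) ^ 2 * (-(m - 1 / 2) - 2 / 100) ^ 2 := by ring
    rw [e]
    have := sq_nonneg (-(m - 1 / 2) - 2 / 100)
    have e2 : (2083 / 1000 * (-(m - 1 / 2) - 2 / 100)) ^ 2 = (2083 / 1000) ^ 2 * (-(m - 1 / 2) - 2 / 100) ^ 2 := by ring
    rw [e2]
    linarith

theorem algK (η : ℝ) (hη0 : 0 < η) (hη : η ≤ 245 / 1000) :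
    11 / 100 * η ≤ (1 - η) ^ 2 * (11 / 100 * (1 - (1 - η) ^ 2)) := by
  have h1 : (1 - (1 - η) ^ 2) = η * (2 - η) := by ring
  rw [h1]
  have h2 : (755 / 1000) ^ 2 ≤ (1 - η) ^ 2 := pow_le_pow_left₀ (by norm_num) (by linarith) 2
  have h3 : (1755 / 1000 : ℝ) * η ≤ η * (2 - η) := by
    have : 0 ≤ η * (245 / 1000 - η) := mul_nonneg hη0.le (by linarith)
    linarith
  have h4 : (755 / 1000) ^ 2 * ((1755 / 1000 : ℝ) * η) ≤ (1 - η) ^ 2 * (η * (2 - η)) :=
    mul_le_mul h2 h3 (by positivity) (by positivity)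
  linarith

theorem alg (a b m : ℝ) (ha : 0 < a) (hb : b < 1) (hd2 : 755 / 1000 ≤ b - a) :
    J s1 m ≤ 4 * m * (1 - m) - 4 * (m - a) * (b - m) +
        (b - a) ^ 2 * (1 + 11 / 100 * (1 - (b - a) ^ 2)) := by
  have key : ∀ e1 e2 : ℝ, 4 * m * (1 - m) - 4 * (m - e1) * ((1 - e2) - m) +
      ((1 - e2) - e1) ^ 2 * (1 + 11 / 100 * (1 - ((1 - e2) - e1) ^ 2)) =
      1 + (e2 - e1) ^ 2 + 4 * (m - 1 / 2) * (e2 - e1) +
        (1 - (e1 + e2)) ^ 2 * (11 / 100 * (1 - (1 - (e1 + e2)) ^ 2)) := by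
    intro e1 e2; ring
  obtain ⟨e2, he2⟩ : ∃ e2, e2 = 1 - b := ⟨_, rfl⟩
  have hb' : b = 1 - e2 := by linarith
  subst hb'
  rw [key a e2]
  have hη0 : 0 < a + e2 := by linarith
  have hη : a + e2 ≤ 245 / 1000 := by linarith
  have hgain := algK (a + e2) hη0 hη
  have hD0 : |e2 - a| ≤ a + e2 := by rw [abs_le]; constructor <;> linarith
  have habs : |4 * (m - 1 / 2) * (e2 - a)| ≤ 4 * |m - 1 / 2| * |e2 - a| := by
    rw [abs_mul, abs_mul]
    have h4 : |(4:ℝ)| = 4 := by norm_num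
    rw [h4]
  have hlow := (abs_le.1 habs).1
  have hsq : (e2 - a) ^ 2 = |e2 - a| ^ 2 := (sq_abs _).symm
  rw [hsq]
  have hD1 := abs_nonneg (e2 - a)
  have hν := abs_nonneg (m - 1 / 2)
  rcases le_or_gt |m - 1 / 2| (2 / 100) with hμ2 | hμ2
  · have := J_le_one s1 m
    have h7 : 4 * |m - 1 / 2| * |e2 - a| ≤ 11 / 100 * |e2 - a| :=
      mul_le_mul_of_nonneg_right (by linarith) hD1
    nlinarith
  · have hJle := algJ m hμ2
    generalize |m - 1 / 2| = ν at *
    generalize |e2 - a| = Δ at *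
    -- Δ² - (4ν - .11) Δ + (2.083(ν-.02))² ≥ 0
    have h8 : 0 ≤ Δ ^ 2 - (4 * ν - 11 / 100) * Δ + (2083 / 1000 * (ν - 2 / 100)) ^ 2 := by
      have h9 : (4 * ν - 11 / 100) * Δ ≤ 2 * (2083 / 1000 * (ν - 2 / 100)) * Δ :=
        mul_le_mul_of_nonneg_right (by linarith) hD1
      nlinarith [sq_nonneg (Δ - 2083 / 1000 * (ν - 2 / 100))]
    linarith

theorem oneD (f f' : ℝ → ℝ) (hf : ∀ x, HasDerivAt f (f' x) x) (hf' : Continuous f')
    (h0 : ∀ x ∈ Icc (0:ℝ) 1, 0 < f x) (h1 : ∀ x ∈ Icc (0:ℝ) 1, f x < 1) :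
    J s1 (∫ x in (0:ℝ)..1, f x) ≤ ∫ x in (0:ℝ)..1, √(J s1 (f x) ^ 2 + f' x ^ 2) := by
  have hfc : Continuous f := continuous_iff_continuousAt.2 fun x => (hf x).continuousAt
  have h01 : (0:ℝ) ≤ 1 := by norm_num
  have hne : (Icc (0:ℝ) 1).Nonempty := nonempty_Icc.2 h01
  obtain ⟨p, hp, hpmin⟩ := isCompact_Icc.exists_isMinOn hne hfc.continuousOn
  obtain ⟨q, hq, hqmax⟩ := isCompact_Icc.exists_isMaxOn hne hfc.continuousOn
  have hmem : ∀ x ∈ Icc (0:ℝ) 1, f x ∈ Icc (f p) (f q) := fun x hx => ⟨hpmin hx, hqmax hx⟩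
  have hJ := continuous_J s1
  rcases (hmem q hq).1.eq_or_lt with hpq | hab
  · -- constant case
    have hconst : ∀ x ∈ uIcc (0:ℝ) 1, f x = f p := by
      intro x hx
      rw [uIcc_of_le h01] at hx
      have := hmem x hx
      rw [← hpq] at this
      exact le_antisymm this.2 this.1
    have e1 : (∫ x in (0:ℝ)..1, f x) = f p := by
      rw [intervalIntegral.integral_congr (g := fun _ => f p) hconst]
      simp
    rw [e1]
    have e2 : (∫ x in (0:ℝ)..1, J s1 (f p)) = J s1 (f p) := by simp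
    rw [← e2]
    apply intervalIntegral.integral_mono_on h01
    · exact continuous_const.intervalIntegrable _ _
    · apply Continuous.intervalIntegrable; fun_prop
    · intro x hx
      have : f x = f p := hconst x (by rw [uIcc_of_le h01]; exact hx)
      rw [this]
      apply Real.le_sqrt_of_sq_le
      nlinarith [sq_nonneg (f' x)]
  set a := f p with haf
  set b := f q with hbf
  have ha : 0 < a := h0 p hp
  have hb : b < 1 := h1 q hq
  set m := ∫ x in (0:ℝ)..1, f x with hmdef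
  have hm : m ∈ Icc a b := by
    constructor
    · have : (∫ x in (0:ℝ)..1, a) ≤ m := intervalIntegral.integral_mono_on h01
        (continuous_const.intervalIntegrable _ _) (hfc.intervalIntegrable _ _)
        (fun x hx => (hmem x hx).1)
      simpa using this
    · have : m ≤ (∫ x in (0:ℝ)..1, b) := intervalIntegral.integral_mono_on h01
        (hfc.intervalIntegrable _ _) (continuous_const.intervalIntegrable _ _)
        (fun x hx => (hmem x hx).2)
      simpa using this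
  have hcost := cost_ge s1 a b p q s1_pos s1_le ha hab hb f f' hf hf' hmem hp hq rfl rfl
  have hI0 : 0 ≤ ∫ y in a..b, rho s1 a b y :=
    intervalIntegral.integral_nonneg hab.le fun y _ => Real.sqrt_nonneg _
  rcases le_or_gt (J s1 m - L s1 a b m) 0 with hM | hM
  · linarith
  have hLm := L_pos s1 a b m s1_pos s1_le ha hab hb hm
  have hJm := J_le_one s1 m
  rcases le_or_gt (J s1 m - L s1 a b m) (62 / 100) with hM2 | hM2
  · -- case A
    have h2 := lemma1 s1 a b m s1_pos s1_le ha hab hb hm hM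
    have h3 := le_h' (1 - (J s1 m - L s1 a b m)) (by linarith) (by linarith)
    set M := J s1 m - L s1 a b m with hMd
    have h4 : 2 * s1 * ((1 - (1 - M)) * (1 + 11 / 100 * (1 - M))) ≤ 2 * s1 * h (1 - M) :=
      mul_le_mul_of_nonneg_left h3 (by linarith [s1_pos])
    have h5 : M ≤ 2 * s1 * ((1 - (1 - M)) * (1 + 11 / 100 * (1 - M))) := by
      have h6 : (38 / 100 : ℝ) ≤ 1 - M := by linarith
      unfold s1
      nlinarith
    linarith
  · -- case B
    have hchord := le_chord s1 a b m s1_pos s1_le hab hm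
    have hM3 : 62 / 100 < (m - a) * (b - m) / s1 ^ 2 := by
      have : L s1 a b m = J s1 a + (J s1 b - J s1 a) / (b - a) * (m - a) := rfl
      linarith
    have hd : 62 / 100 * s1 ^ 2 * 4 < (b - a) ^ 2 := by
      rw [lt_div_iff₀ (by have := s1_pos; positivity)] at hM3
      nlinarith [sq_nonneg ((m - a) - (b - m))]
    have hd2 : 755 / 1000 ≤ b - a := by
      by_contra hcon
      push Not at hcon
      have : (b - a) ^ 2 ≤ (755 / 1000) ^ 2 := pow_le_pow_left₀ (by linarith) hcon.le 2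
      unfold s1 at hd
      norm_num at hd this
      linarith
    -- use the parabola
    have hhalf : (0:ℝ) < 1 / 2 := by norm_num
    have hcost2 := cost_ge (1/2) a b p q hhalf le_rfl ha hab hb f f' hf hf' hmem hp hq rfl rfl
    have hle : (∫ x in (0:ℝ)..1, √(J (1/2) (f x) ^ 2 + f' x ^ 2)) ≤
        ∫ x in (0:ℝ)..1, √(J s1 (f x) ^ 2 + f' x ^ 2) := by
      have := continuous_J (1/2)
      apply intervalIntegral.integral_mono_on h01
      · apply Continuous.intervalIntegrable; fun_prop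
      · apply Continuous.intervalIntegrable; fun_prop
      · intro x hx
        apply Real.sqrt_le_sqrt
        have h5 := J_half_le s1 (f x) s1_pos s1_le (h0 x hx).le (h1 x hx).le
        have h6 := J_nonneg (1/2) (f x) hhalf le_rfl (h0 x hx).le (h1 x hx).le
        have := pow_le_pow_left₀ h6 h5 2
        linarith
    set xm := (a + b) / 2 with hxm
    have hxmem : xm ∈ Icc a b := ⟨by linarith, by linarith⟩
    have hM0 : J (1/2) xm - L (1/2) a b xm = (b - a) ^ 2 := by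
      rw [L_conv _ _ _ _ hab]
      simp only [J_half, hxm]
      have : b - a ≠ 0 := by linarith
      field_simp
      ring
    have hLm2 : L (1/2) a b m = 4 * m * (1 - m) - 4 * (m - a) * (b - m) := by
      rw [L_conv _ _ _ _ hab]
      simp only [J_half]
      have : b - a ≠ 0 := by linarith
      field_simp
      ring
    have hsq1 : (b - a) ^ 2 < 1 := by nlinarith
    have hsq0 : 0 < (b - a) ^ 2 := by nlinarith
    have h2 := lemma1 (1/2) a b xm hhalf le_rfl ha hab hb hxmem (by rw [hM0]; exact hsq0)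
    rw [hM0] at h2
    have h3 := le_h' (1 - (b - a) ^ 2) (by linarith) (by linarith)
    rw [hLm2] at hcost2
    have hc3 : 4 * m * (1 - m) - 4 * (m - a) * (b - m) +
        (b - a) ^ 2 * (1 + 11 / 100 * (1 - (b - a) ^ 2)) ≤
        ∫ x in (0:ℝ)..1, √(J s1 (f x) ^ 2 + f' x ^ 2) := by
      have : (1 - (1 - (b - a) ^ 2)) * (1 + 11 / 100 * (1 - (b - a) ^ 2)) =
        (b - a) ^ 2 * (1 + 11 / 100 * (1 - (b - a) ^ 2)) := by ring
      linarith
    refine le_trans ?_ hc3
    exact alg a b m ha hb hd2 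

end Pool.Agent.H48R3.CP2
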