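import Pool.Agent.H48R3.CP.Tensor
import Pool.Agent.H48R3.CP2.OneD

set_option autoImplicit false

namespace Pool.Agent.H48R3.CP2

open Set Filter Topology MeasureTheory
open Pool.Agent.H48R3.CP hiding algJ algK algN alg s0 s0_pos s0_le oneD le_h tensor

theorem tensor (n : ℕ) : ∀ f : (Fin n → ℝ) → ℝ, ContDiff ℝ 1 f → (∀ x, 0 < f x) →
    (∀ x, f x < 1) → J s1 (∫ x in Icc (0 : Fin n → ℝ) 1, f x) ≤
      ∫ x in Icc (0 : Fin n → ℝ) 1, √(J s1 (f x) ^ 2 + ∑ i, D f i x ^ 2) := by
  have hJc := continuous_J s1
  induction n with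
  | zero =>
    intro f hf h0 h1
    have e0 : ∀ g : (Fin 0 → ℝ) → ℝ, ∫ x in Icc (0 : Fin 0 → ℝ) 1, g x = g 0 := by
      intro g
      have : ∀ x, g x = g 0 := fun x => by rw [Subsingleton.elim x 0]
      simp_rw [this]
      rw [setIntegral_const, Measure.real, vol_Icc]
      simp
    rw [e0, e0]
    apply Real.le_sqrt_of_sq_le
    simp
  | succ n ih =>
    intro f hf h0 h1
    have hfc := hf.continuous
    have hDc := fun i => continuous_D f hf i
    have hcs := @continuous_cs n
    have hQc : IsCompact (Icc (0 : Fin n → ℝ) 1) := isCompact_Icc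
    -- slices
    set F : ℝ → ℝ := fun t => ∫ x in Icc (0 : Fin n → ℝ) 1, f (cs t x) with hF
    set F' : ℝ → ℝ := fun t => ∫ x in Icc (0 : Fin n → ℝ) 1, D f 0 (cs t x) with hF'
    have hF'c : Continuous F' :=
      continuous_parametric_integral_of_continuous (f := fun t x => D f 0 (cs t x))
        ((hDc 0).comp hcs) hQc
    have hcst : ∀ t, Continuous (fun x : Fin n → ℝ => cs t x) := fun t =>
      hcs.comp (Continuous.prodMk_right t)
    have hInt : ∀ (g : (Fin n → ℝ) → ℝ), Continuous g → IntegrableOn g (Icc (0 : Fin n → ℝ) 1) :=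
      fun g hg => hg.continuousOn.integrableOn_compact hQc
    have hFd : ∀ t, HasDerivAt F (F' t) t := by
      intro t
      obtain ⟨C, hC⟩ := ((isCompact_closedBall t 1).prod hQc).exists_bound_of_continuousOn
        (f := fun p : ℝ × (Fin n → ℝ) => D f 0 (cs p.1 p.2)) ((hDc 0).comp hcs).continuousOn
      refine (hasDerivAt_integral_of_dominated_loc_of_deriv_le (bound := fun _ => C)
        (s := Metric.closedBall t 1) (F := fun t x => f (cs t x))
        (F' := fun t x => D f 0 (cs t x)) (Metric.closedBall_mem_nhds t one_pos) ?_ ?_ ?_ ?_ ?_ ?_).2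
      · exact Eventually.of_forall fun u => (hfc.comp (hcst u)).aestronglyMeasurable
      · exact hInt _ (hfc.comp (hcst t))
      · exact ((hDc 0).comp (hcst t)).aestronglyMeasurable
      · rw [ae_restrict_iff' measurableSet_Icc]
        exact Eventually.of_forall fun x hx u hu => hC (u, x) ⟨hu, hx⟩
      · exact hInt _ continuous_const
      · exact Eventually.of_forall fun x u _ => hasDerivAt_cs f hf x u
    have hvol : (volume.restrict (Icc (0 : Fin n → ℝ) 1)) univ = 1 := by
      rw [Measure.restrict_apply_univ, vol_Icc]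
    have hpos : ∀ g : (Fin n → ℝ) → ℝ, Continuous g → (∀ x, 0 < g x) →
        0 < ∫ x in Icc (0 : Fin n → ℝ) 1, g x := by
      intro g hg hg0
      rw [integral_pos_iff_support_of_nonneg (fun x => (hg0 x).le) (hInt g hg)]
      have : Function.support g = univ := by
        ext x; simpa using (hg0 x).ne'
      rw [this, hvol]
      norm_num
    have hF0 : ∀ t, 0 < F t := fun t => hpos _ (hfc.comp (hcst t)) fun x => h0 _
    have hF1 : ∀ t, F t < 1 := by
      intro t
      have h2 := hpos (fun x => 1 - f (cs t x)) (continuous_const.sub (hfc.comp (hcst t)))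
        (fun x => by linarith [h1 (cs t x)])
      rw [integral_sub (hInt _ continuous_const) (hInt (fun x => f (cs t x)) (hfc.comp (hcst t)))] at h2
      have h3 : (∫ x in Icc (0 : Fin n → ℝ) 1, (1:ℝ)) = 1 := by
        rw [setIntegral_const, Measure.real, vol_Icc]; simp
      rw [h3] at h2
      show (∫ x in Icc (0 : Fin n → ℝ) 1, f (cs t x)) < 1
      linarith
    rw [fubini_cube f hfc]
    refine (oneD F F' hFd hF'c (fun t _ => hF0 t) (fun t _ => hF1 t)).trans ?_
    have hgc : Continuous fun x => √(J s1 (f x) ^ 2 + ∑ i, D f i x ^ 2) := by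
      fun_prop
    rw [fubini_cube _ hgc]
    apply intervalIntegral.integral_mono_on (by norm_num)
    · apply Continuous.intervalIntegrable
      have : Continuous F := continuous_iff_continuousAt.2 fun x => (hFd x).continuousAt
      fun_prop
    · apply Continuous.intervalIntegrable
      exact continuous_parametric_integral_of_continuous
        (f := fun t x => √(J s1 (f (cs t x)) ^ 2 + ∑ i, D f i (cs t x) ^ 2))
        (hgc.comp hcs) hQc
    intro t _
    -- the slice inequality
    have hih := ih (fun x => f (cs t x)) (contDiff_slice f hf t) (fun x => h0 _) (fun x => h1 _)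
    simp only [D_slice f hf t] at hih
    set A : (Fin n → ℝ) → ℝ := fun x => √(J s1 (f (cs t x)) ^ 2 + ∑ i : Fin n, D f i.succ (cs t x) ^ 2)
      with hA
    set B : (Fin n → ℝ) → ℝ := fun x => |D f 0 (cs t x)| with hB
    have hct := hcst t
    have hAc : Continuous A := by
      show Continuous fun x => √(J s1 (f (cs t x)) ^ 2 + ∑ i : Fin n, D f i.succ (cs t x) ^ 2)
      fun_prop
    have hBc : Continuous B := by
      show Continuous fun x => |D f 0 (cs t x)|
      fun_prop
    have hABe : ∀ x, √(A x ^ 2 + B x ^ 2) = √(J s1 (f (cs t x)) ^ 2 + ∑ i, D f i (cs t x) ^ 2) := by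
      intro x
      congr 1
      rw [hA, hB]
      simp only
      rw [Real.sq_sqrt (by positivity), sq_abs, Fin.sum_univ_succ]
      ring
    have hmk := minkowski (volume.restrict (Icc (0 : Fin n → ℝ) 1)) A B (hInt A hAc) (hInt B hBc)
      (hInt _ (by fun_prop))
    simp only [hABe] at hmk
    refine le_trans ?_ hmk
    apply Real.sqrt_le_sqrt
    have hJ0 := J_nonneg s1 (F t) s1_pos s1_le (hF0 t).le (hF1 t).le
    have h5 : J s1 (F t) ^ 2 ≤ (∫ x in Icc (0 : Fin n → ℝ) 1, A x) ^ 2 :=
      pow_le_pow_left₀ hJ0 hih 2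
    have h6 : F' t ^ 2 ≤ (∫ x in Icc (0 : Fin n → ℝ) 1, B x) ^ 2 := by
      rw [← sq_abs]
      apply pow_le_pow_left₀ (abs_nonneg _)
      exact abs_integral_le_integral_abs
    linarith

end Pool.Agent.H48R3.CP2
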